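import Mathlib
import Pool.Agent.FS.CliqueCap.Main

/-!
In the biased clique game in which Player 1 claims `p` edges and Player 2 claims `q` edges per
turn, both large, the clique number that Player 1 can force is `p log n / log (q + 1)` up to a
factor close to one.
-/

set_option autoImplicit false

namespace Pool.Agent.Results.MP_1024aa_co.CliqueValue

open Pool.Agent.Lib.MP_1024aa_co.Bias Pool.Agent.FS.CliqueCap in
theorem result :
    ∀ ε : ℝ, 0 < ε → ∃ m₀ : ℕ, ∀ p q : ℕ, m₀ ≤ p → m₀ ≤ q → ∃ N : ℕ, ∀ n : ℕ, N ≤ n →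
    (∃ σ : Finset (Sym2 (Fin n)) → Finset (Sym2 (Fin n)) → Finset (Sym2 (Fin n)),
      (∀ R B : Finset (Sym2 (Fin n)),
        σ R B ⊆ (⊤ : SimpleGraph (Fin n)).edgeFinset \ (R ∪ B) ∧
        (σ R B).card = min q ((⊤ : SimpleGraph (Fin n)).edgeFinset \ (R ∪ B)).card) ∧
      ∀ (t : ℕ) (M R B : ℕ → Finset (Sym2 (Fin n))),
        R 0 = ∅ → B 0 = ∅ →
        (∀ i < t, M i ⊆ (⊤ : SimpleGraph (Fin n)).edgeFinset \ (R i ∪ B i) ∧
          (M i).card = min p ((⊤ : SimpleGraph (Fin n)).edgeFinset \ (R i ∪ B i)).card ∧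
          R (i + 1) = R i ∪ M i ∧ B (i + 1) = B i ∪ σ (R (i + 1)) (B i)) →
        R t ∪ B t = (⊤ : SimpleGraph (Fin n)).edgeFinset →
        ((SimpleGraph.fromEdgeSet (R t : Set (Sym2 (Fin n)))).cliqueNum : ℝ) ≤
          (1 + ε) * p * Real.log n / Real.log (q + 1)) ∧
    (∃ τ : Finset (Sym2 (Fin n)) → Finset (Sym2 (Fin n)) → Finset (Sym2 (Fin n)),
      (∀ R B : Finset (Sym2 (Fin n)),
        τ R B ⊆ (⊤ : SimpleGraph (Fin n)).edgeFinset \ (R ∪ B) ∧
        (τ R B).card = min p ((⊤ : SimpleGraph (Fin n)).edgeFinset \ (R ∪ B)).card) ∧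
      ∀ (t : ℕ) (M R B : ℕ → Finset (Sym2 (Fin n))),
        R 0 = ∅ → B 0 = ∅ →
        (∀ i < t, R (i + 1) = R i ∪ τ (R i) (B i) ∧
          M i ⊆ (⊤ : SimpleGraph (Fin n)).edgeFinset \ (R (i + 1) ∪ B i) ∧
          (M i).card = min q ((⊤ : SimpleGraph (Fin n)).edgeFinset \ (R (i + 1) ∪ B i)).card ∧
          B (i + 1) = B i ∪ M i) →
        R t ∪ B t = (⊤ : SimpleGraph (Fin n)).edgeFinset →
        (1 - ε) * p * Real.log n / Real.log (q + 1) ≤
          ((SimpleGraph.fromEdgeSet (R t : Set (Sym2 (Fin n)))).cliqueNum : ℝ)) := by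
  intro ε hε
  obtain ⟨s, hs⟩ := exists_nat_gt (3 / ε)
  have hs0 : (0 : ℝ) < s := lt_trans (by positivity) hs
  have hs1 : 1 ≤ s := by exact_mod_cast hs0
  obtain ⟨m₀, h₀⟩ := exists_block hs1
  refine ⟨max m₀ (64 ^ s), fun p q hp hq => ?_⟩
  have h64 : 1 ≤ 64 ^ s := Nat.one_le_pow _ _ (by norm_num)
  have hp1 : 1 ≤ p := h64.trans (le_of_max_le_right hp)
  have hq1 : 1 ≤ q := h64.trans (le_of_max_le_right hq)
  obtain ⟨N, hN⟩ := h₀ p q (le_of_max_le_left hp) (le_of_max_le_left hq)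
  obtain ⟨N', hN'⟩ := exists_level hs1 hp1 (le_of_max_le_right hq)
  have c2 : 3 * (1 / (s : ℝ)) ≤ ε := by
    rw [mul_one_div, div_le_iff₀ hs0]
    rw [div_lt_iff₀ hε] at hs
    linarith
  refine ⟨max N N', fun n hn => ⟨?_, ?_⟩⟩
  · obtain ⟨P, hG, h0, hfin⟩ := hN n (le_of_max_le_left hn)
      (⊤ : SimpleGraph (Fin n)).edgeFinset (by simp)
    obtain ⟨σ, h1, h2⟩ := hG.play le_rfl h0
    refine ⟨σ, h1, fun t M R B hR hB hplay hend => ?_⟩
    obtain ⟨h3, h4⟩ := h2 t M R B hR hB hplay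
    have hK := hfin _ _ h3 h4 hend
    obtain ⟨S, hS⟩ :=
      (SimpleGraph.fromEdgeSet (R t : Set (Sym2 (Fin n)))).exists_isNClique_cliqueNum
    have c1 : (SimpleGraph.fromEdgeSet (R t : Set (Sym2 (Fin n)))).cliqueNum <
        ⌈(1 + 3 * (1 / (s : ℝ))) * (Real.log n / (Real.log (1 + q) / p))⌉₊ := by
      by_contra hc
      obtain ⟨K, hKS, hKc⟩ := Finset.exists_subset_card_eq (s := S)
        (n := ⌈(1 + 3 * (1 / (s : ℝ))) * (Real.log n / (Real.log (1 + q) / p))⌉₊)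
        (by rw [hS.card_eq]; omega)
      exact hK K hKc fun u hu v hv huv =>
        ((SimpleGraph.fromEdgeSet_adj _).1 (hS.isClique (hKS hu) (hKS hv) huv)).1
    refine (Nat.lt_ceil.1 c1).le.trans ?_
    have c3 : 0 ≤ Real.log n := Real.log_natCast_nonneg n
    have c4 : 0 ≤ Real.log (1 + q) := Real.log_nonneg (le_add_of_nonneg_right (Nat.cast_nonneg q))
    calc (1 + 3 * (1 / (s : ℝ))) * (Real.log n / (Real.log (1 + q) / p))
        ≤ (1 + ε) * (Real.log n / (Real.log (1 + q) / p)) :=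
          mul_le_mul_of_nonneg_right (by linarith) (by positivity)
      _ = _ := by rw [div_div_eq_mul_div, add_comm (q : ℝ) 1]; ring
  · obtain ⟨L, hL1, hL2⟩ := hN' n (le_of_max_le_right hn)
    obtain ⟨τ, h1, h2⟩ := play_first
      (Force.guard (E := (⊤ : SimpleGraph (Fin n)).edgeFinset) (p := q) (r := p)
        (HasClique.mono (p * L))) le_rfl (force_clique (by simp) hq1 (by simpa using hL1))
    refine ⟨τ, h1, fun t M R B hR hB hplay hend => ?_⟩
    obtain ⟨D, hD1, hD2⟩ := (h2 t M R B hR hB hplay hend).final ((Finset.union_comm (B t) (R t)).trans hend)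
    have c1 : D.card ≤ (SimpleGraph.fromEdgeSet (R t : Set (Sym2 (Fin n)))).cliqueNum :=
      SimpleGraph.IsClique.card_le_cliqueNum (tc := fun u hu v hv huv =>
        (SimpleGraph.fromEdgeSet_adj _).2 ⟨hD2 u hu v hv huv, huv⟩)
    have c5 : (p : ℝ) * L ≤ (SimpleGraph.fromEdgeSet (R t : Set (Sym2 (Fin n)))).cliqueNum := by
      exact_mod_cast hD1.trans c1
    refine le_trans ?_ c5
    have hq' : (1 : ℝ) ≤ q := by exact_mod_cast hq1
    have c3 : 0 ≤ Real.log n := Real.log_natCast_nonneg n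
    have c6 : 0 < 1 / (s : ℝ) := by positivity
    rw [div_le_iff₀ (Real.log_pos (by linarith)), mul_comm (1 - ε), mul_assoc, mul_assoc]
    exact mul_le_mul_of_nonneg_left
      ((mul_le_mul_of_nonneg_right (by linarith) c3).trans hL2) (Nat.cast_nonneg p)

end Pool.Agent.Results.MP_1024aa_co.CliqueValue
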