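import Mathlib
import Pool.Agent.Lib.MP_1024aa_co.BiasMain

/-!
The biased clique game in which Player 1 claims `p` edges and Player 2 claims `q` edges per turn is
a Player 2 win on every large complete graph as soon as `q ≥ (1 + ε) p` and `p` is large.
-/

set_option autoImplicit false

namespace Pool.Agent.Results.MP_1024aa_co.LinearBias

open Pool.Agent.Lib.MP_1024aa_co.Bias in
theorem result :
    ∀ ε : ℝ, 0 < ε → ∃ p₀ : ℕ, ∀ p : ℕ, p₀ ≤ p → ∃ N : ℕ, ∀ q n : ℕ, (1 + ε) * p ≤ q → N ≤ n →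
    ∃ σ : Finset (Sym2 (Fin n)) → Finset (Sym2 (Fin n)) → Finset (Sym2 (Fin n)),
      (∀ R B : Finset (Sym2 (Fin n)),
        σ R B ⊆ (⊤ : SimpleGraph (Fin n)).edgeFinset \ (R ∪ B) ∧
        (σ R B).card = min q ((⊤ : SimpleGraph (Fin n)).edgeFinset \ (R ∪ B)).card) ∧
      ∀ (t : ℕ) (M R B : ℕ → Finset (Sym2 (Fin n))),
        R 0 = ∅ → B 0 = ∅ →
        (∀ i < t, M i ⊆ (⊤ : SimpleGraph (Fin n)).edgeFinset \ (R i ∪ B i) ∧
          (M i).card = min p ((⊤ : SimpleGraph (Fin n)).edgeFinset \ (R i ∪ B i)).card ∧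
          R (i + 1) = R i ∪ M i ∧ B (i + 1) = B i ∪ σ (R (i + 1)) (B i)) →
        R t ∪ B t = (⊤ : SimpleGraph (Fin n)).edgeFinset →
        (SimpleGraph.fromEdgeSet (R t : Set (Sym2 (Fin n)))).cliqueNum <
          (SimpleGraph.fromEdgeSet (B t : Set (Sym2 (Fin n)))).cliqueNum := by
  intro ε hε
  obtain ⟨s, hs⟩ := exists_nat_gt (3 / ε)
  have hs0 : (0 : ℝ) < s := lt_trans (by positivity) hs
  have hs1 : 1 ≤ s := by exact_mod_cast hs0
  obtain ⟨p₀, h₀⟩ := exists_guard hs1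
  refine ⟨p₀, fun p hp => ?_⟩
  obtain ⟨N, hN⟩ := h₀ p hp
  refine ⟨N, fun q n hq hn => ?_⟩
  obtain ⟨P, hG, h0, hfin⟩ := hN n hn (⊤ : SimpleGraph (Fin n)).edgeFinset (by simp)
  have hle : p + 3 * (p / s) ≤ q := by
    have e1 : ((p / s : ℕ) : ℝ) ≤ p / s := Nat.cast_div_le
    rw [le_div_iff₀ hs0] at e1
    rw [div_lt_iff₀ hε] at hs
    have e2 : (0 : ℝ) ≤ (p / s : ℕ) := Nat.cast_nonneg _
    have e3 : (p : ℝ) + 3 * (p / s : ℕ) ≤ q := by nlinarith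
    exact_mod_cast e3
  obtain ⟨σ, h1, h2⟩ := hG.play hle h0
  refine ⟨σ, h1, fun t M R B hR hB hplay hend => ?_⟩
  obtain ⟨h3, h4⟩ := h2 t M R B hR hB hplay
  obtain ⟨k, ⟨D, hD1, hD2⟩, hK⟩ := hfin _ _ h3 h4 hend
  have c1 : D.card ≤ (SimpleGraph.fromEdgeSet (B t : Set (Sym2 (Fin n)))).cliqueNum :=
    SimpleGraph.IsClique.card_le_cliqueNum (tc := fun u hu v hv huv =>
      (SimpleGraph.fromEdgeSet_adj _).2 ⟨hD2 u hu v hv huv, huv⟩)
  obtain ⟨S, hS⟩ := (SimpleGraph.fromEdgeSet (R t : Set (Sym2 (Fin n)))).exists_isNClique_cliqueNum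
  by_contra hc
  obtain ⟨K, hKS, hKc⟩ := Finset.exists_subset_card_eq (s := S) (n := k)
    (by rw [hS.card_eq]; omega)
  exact hK K hKc fun u hu v hv huv =>
    ((SimpleGraph.fromEdgeSet_adj _).1 (hS.isClique (hKS hu) (hKS hv) huv)).1

end Pool.Agent.Results.MP_1024aa_co.LinearBias
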