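import Mathlib
import Pool.Agent.Lib.MP_1024aa_co.All
import Pool.Agent.Lib.MP_1024aa_co.Play

/-!
The biased clique game in which Player 1 claims one edge and Player 2 two edges per turn is a
Player 2 win on `K_n` for every `n ≥ 4`: one strategy of Player 2 wins every play.
-/

set_option autoImplicit false

namespace Pool.Agent.Results.MP_1024aa_co.Strategy

theorem result :
    ∀ n : ℕ, 4 ≤ n →
    ∃ σ : Finset (Sym2 (Fin n)) → Finset (Sym2 (Fin n)) → Finset (Sym2 (Fin n)),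
      (∀ R B : Finset (Sym2 (Fin n)),
        σ R B ⊆ (⊤ : SimpleGraph (Fin n)).edgeFinset \ (R ∪ B) ∧
        (σ R B).card = min 2 ((⊤ : SimpleGraph (Fin n)).edgeFinset \ (R ∪ B)).card) ∧
      ∀ (t : ℕ) (e : ℕ → Sym2 (Fin n)) (R B : ℕ → Finset (Sym2 (Fin n))),
        R 0 = ∅ → B 0 = ∅ →
        (∀ i < t, e i ∈ (⊤ : SimpleGraph (Fin n)).edgeFinset \ (R i ∪ B i) ∧
          R (i + 1) = insert (e i) (R i) ∧ B (i + 1) = B i ∪ σ (R (i + 1)) (B i)) →
        R t ∪ B t = (⊤ : SimpleGraph (Fin n)).edgeFinset →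
        (SimpleGraph.fromEdgeSet (R t : Set (Sym2 (Fin n)))).cliqueNum <
          (SimpleGraph.fromEdgeSet (B t : Set (Sym2 (Fin n)))).cliqueNum := by
  intro n hn
  obtain ⟨σ, h1, h2⟩ := Pool.Agent.Lib.MP_1024aa_co.play_of_strat
    (Pool.Agent.Lib.MP_1024aa_co.all_n n hn (⊤ : SimpleGraph (Fin n)).edgeFinset (by simp))
  exact ⟨σ, h1, fun t e R B hR hB hp he =>
    Pool.Agent.Lib.MP_1024aa_co.cliqueNum_lt_of_win (h2 t e R B hR hB hp he)⟩

end Pool.Agent.Results.MP_1024aa_co.Strategy
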